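import Mathlib
import Pool.Agent.Y821.PW.H

set_option autoImplicit false

namespace Pool.Agent.Results.MP_d2f903_nt.PowersSharp

open Polynomial Filter

/-- The naive height of an integer polynomial: the maximum absolute value of its coefficients. -/
noncomputable def height (P : ℤ[X]) : ℕ := P.support.sup (fun i => (P.coeff i).natAbs)

/-- `P` is the minimal polynomial over `ℤ` of the real number `α`: irreducible, primitive,
with positive leading coefficient, vanishing at `α`. -/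
def IsMinPolyZ (P : ℤ[X]) (α : ℝ) : Prop :=
  Irreducible P ∧ P.IsPrimitive ∧ 0 < P.leadingCoeff ∧ aeval α P = 0

/-- Koksma's exponent `w_n^*(ξ)`, in the extended reals: the supremum of the real `w` for which
infinitely many real algebraic numbers `α` of degree at most `n` satisfy
`0 < |ξ - α| ≤ H(α)^(-w-1)`. -/
noncomputable def wKoksma (ξ : ℝ) (n : ℕ) : EReal :=
  sSup {W : EReal | ∃ w : ℝ, W = (w : EReal) ∧
    {α : ℝ | ∃ P : ℤ[X], IsMinPolyZ P α ∧ P.natDegree ≤ n ∧ 0 < |ξ - α| ∧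
      |ξ - α| ≤ (height P : ℝ) ^ (-w - 1)}.Infinite}

/-- `w^*(ξ) = limsup w_n^*(ξ) / n`; this is the *-type of an `S^*`-number. -/
noncomputable def wStar (ξ : ℝ) : EReal :=
  limsup (fun n : ℕ => wKoksma ξ n / (n : EReal)) atTop

/-- `S^*`-numbers. -/
def IsSStar (ξ : ℝ) : Prop := 0 < wStar ξ ∧ wStar ξ < ⊤

theorem wK_eq (ξ : ℝ) (n : ℕ) : wKoksma ξ n =
    sSup {W : EReal | ∃ w : ℝ, W = (w : EReal) ∧ w ∈ Pool.Agent.Helper35.SSet ξ n} := rfl

theorem ratio_coe (a : ℝ) (n : ℕ) :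
    (a : EReal) / (n : EReal) = ((a / (n : ℝ) : ℝ) : EReal) := by
  rw [EReal.coe_div]
  rfl

theorem n_nonneg (n : ℕ) : (0 : EReal) ≤ (n : EReal) := by exact_mod_cast Nat.zero_le n

theorem ratio_le (W : EReal) (a b : ℝ) (n : ℕ) (hn : 1 ≤ n) (h : W ≤ (a : EReal))
    (hab : a ≤ b * n) : W / (n : EReal) ≤ (b : EReal) := by
  have h1 : W / (n : EReal) ≤ (a : EReal) / (n : EReal) :=
    EReal.div_le_div_right_of_nonneg (n_nonneg n) h
  refine h1.trans ?_
  rw [ratio_coe]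
  have hn' : (0 : ℝ) < n := by exact_mod_cast hn
  have h2 : a / (n : ℝ) ≤ b := by
    rw [div_le_iff₀ hn']
    exact hab
  exact_mod_cast h2

theorem le_ratio (W : EReal) (a b : ℝ) (n : ℕ) (hn : 1 ≤ n) (h : (a : EReal) ≤ W)
    (hab : b * n ≤ a) : (b : EReal) ≤ W / (n : EReal) := by
  have h1 : (a : EReal) / (n : EReal) ≤ W / (n : EReal) :=
    EReal.div_le_div_right_of_nonneg (n_nonneg n) h
  refine le_trans ?_ h1
  rw [ratio_coe]
  have hn' : (0 : ℝ) < n := by exact_mod_cast hn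
  have h2 : b ≤ a / (n : ℝ) := by
    rw [le_div_iff₀ hn']
    exact hab
  exact_mod_cast h2

theorem sSup_le_of (S : Set ℝ) (a : ℝ) (h : ∀ w ∈ S, w ≤ a) :
    sSup {W : EReal | ∃ w : ℝ, W = (w : EReal) ∧ w ∈ S} ≤ (a : EReal) := by
  apply sSup_le
  rintro W ⟨w, rfl, hw⟩
  exact_mod_cast h w hw

/-- Upper bound for `w^*`. -/
theorem wStar_le (ξ : ℝ) (b K : ℝ)
    (h : ∀ n : ℕ, ∀ w ∈ Pool.Agent.Helper35.SSet ξ n, w ≤ b * n + K) :
    wStar ξ ≤ (b : EReal) := by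
  apply le_of_forall_gt_imp_ge_of_dense
  intro c hc
  obtain ⟨b', hb1, hb2⟩ := EReal.lt_iff_exists_real_btwn.mp hc
  have hbb : b < b' := by exact_mod_cast hb1
  refine le_trans ?_ hb2.le
  apply limsup_le_of_le
  · isBoundedDefault
  · obtain ⟨N, hN⟩ := exists_nat_gt (K / (b' - b))
    filter_upwards [eventually_ge_atTop (N + 1)] with n hn
    have hnN : (N : ℝ) ≤ n := by exact_mod_cast (by omega : N ≤ n)
    apply ratio_le _ (b * n + K) b' n (by omega)
    · rw [wK_eq]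
      exact sSup_le_of _ _ (h n)
    · have h1 : K / (b' - b) < n := lt_of_lt_of_le hN hnN
      rw [div_lt_iff₀ (by linarith)] at h1
      nlinarith

/-- Lower bound for `w^*`. -/
theorem le_wStar (ξ : ℝ) (b : ℝ)
    (h : ∀ b' : ℝ, b' < b → ∃ᶠ n : ℕ in atTop, b' * n ∈ Pool.Agent.Helper35.SSet ξ n) :
    (b : EReal) ≤ wStar ξ := by
  apply le_of_forall_lt_imp_le_of_dense
  intro c hc
  obtain ⟨b', hb1, hb2⟩ := EReal.lt_iff_exists_real_btwn.mp hc
  have hbb : b' < b := by exact_mod_cast hb2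
  refine le_trans hb1.le ?_
  apply le_limsup_of_frequently_le
  · refine ((h b' hbb).and_eventually (eventually_ge_atTop 1)).mono ?_
    rintro n ⟨hn, hn1⟩
    apply le_ratio _ (b' * n) b' n hn1 _ le_rfl
    rw [wK_eq]
    exact le_sSup ⟨b' * n, rfl, hn⟩
  · isBoundedDefault

/-- Extraction of good approximations. -/
theorem of_lt_wStar (ξ : ℝ) (b : ℝ) (h : (b : EReal) < wStar ξ) :
    ∃ᶠ n : ℕ in atTop, ∃ w ∈ Pool.Agent.Helper35.SSet ξ n, b * n < w := by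
  have h1 : ∃ᶠ n : ℕ in atTop, (b : EReal) < wKoksma ξ n / (n : EReal) :=
    frequently_lt_of_lt_limsup (by isBoundedDefault) h
  refine (h1.and_eventually (eventually_ge_atTop 1)).mono ?_
  rintro n ⟨hn, hn1⟩
  by_contra hcon
  push Not at hcon
  have h2 : wKoksma ξ n / (n : EReal) ≤ (b : EReal) := by
    apply ratio_le _ (b * n) b n hn1 _ le_rfl
    rw [wK_eq]
    exact sSup_le_of _ _ hcon
  exact absurd hn (not_lt.mpr h2)

/-- `w^*(ξ^m) ≥ w^*(ξ) / m`. -/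
theorem part_pow {m : ℕ} (hm : 1 ≤ m) (ξ : ℝ) (hξ : ξ ≠ 0) (b : ℝ) (hb : 0 < b)
    (h : (b : EReal) < wStar ξ) : ((b / m : ℝ) : EReal) ≤ wStar (ξ ^ m) := by
  have hm0 : (0 : ℝ) < m := by exact_mod_cast hm
  apply le_wStar
  intro b' hb'
  rw [lt_div_iff₀ hm0] at hb'
  obtain ⟨N, hN⟩ := exists_nat_gt ((m : ℝ) / (b - b' * m))
  refine ((of_lt_wStar ξ b h).and_eventually (eventually_ge_atTop N)).mono ?_
  rintro n ⟨⟨w, hw, hbw⟩, hn⟩
  have hnN : (N : ℝ) ≤ n := by exact_mod_cast hn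
  have h1 : (m : ℝ) / (b - b' * m) < n := lt_of_lt_of_le hN hnN
  have hpos : 0 < b - b' * m := by linarith
  rw [div_lt_iff₀ hpos] at h1
  have hn0 : (0 : ℝ) ≤ n := Nat.cast_nonneg n
  have hbn : 0 ≤ b * n := by positivity
  exact Pool.Agent.Y821.PW.SSet_pow (by omega) ξ n w (by linarith) hw hξ (b' * n) (by nlinarith)

/-- `w^*(ξ) ≥ w^*(ξ^m) / m`. -/
theorem part_root {m : ℕ} (hm : 1 ≤ m) (ξ : ℝ) (hξ : ξ ≠ 0) (b : ℝ) (hb : 0 < b)
    (h : (b : EReal) < wStar (ξ ^ m)) : ((b / m : ℝ) : EReal) ≤ wStar ξ := by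
  have hm0 : (0 : ℝ) < m := by exact_mod_cast hm
  apply le_wStar
  intro b' hb'
  rw [lt_div_iff₀ hm0] at hb'
  have h1 := of_lt_wStar (ξ ^ m) b h
  rw [frequently_atTop] at h1 ⊢
  intro N
  obtain ⟨n, hn, w, hw, hbw⟩ := h1 N
  refine ⟨m * n, le_trans hn (Nat.le_mul_of_pos_left n (by omega)), ?_⟩
  have hn0 : (0 : ℝ) ≤ n := Nat.cast_nonneg n
  have hbn : 0 ≤ b * n := by positivity
  refine Pool.Agent.Y821.PW.SSet_root (by omega) ξ n w (by linarith) hw hξ
    (b' * ((m * n : ℕ) : ℝ)) ?_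
  push_cast
  nlinarith

theorem mul_coe (m : ℕ) (r : ℝ) : (m : EReal) * (r : EReal) = ((m * r : ℝ) : EReal) := by
  push_cast; rfl

/-- The general inequalities. -/
theorem general (ξ : ℝ) (h : IsSStar ξ) (m : ℕ) (hm : 1 ≤ m) :
    IsSStar (ξ ^ m) ∧ wStar ξ ≤ m * wStar (ξ ^ m) ∧ wStar (ξ ^ m) ≤ m * wStar ξ := by
  have hm0 : (0 : ℝ) < m := by exact_mod_cast hm
  have hm1 : (1 : ℝ) ≤ m := by exact_mod_cast hm
  obtain ⟨h0, hT⟩ := h
  obtain ⟨r, hr⟩ : ∃ r : ℝ, wStar ξ = (r : EReal) :=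
    ⟨(wStar ξ).toReal, (EReal.coe_toReal hT.ne (ne_bot_of_gt h0)).symm⟩
  have hr0 : 0 < r := by rw [hr] at h0; exact_mod_cast h0
  by_cases hξ : ξ = 0
  · have e : ξ ^ m = ξ := by rw [hξ]; exact zero_pow (by omega)
    rw [e]
    have h1 : wStar ξ ≤ m * wStar ξ := by
      rw [hr, mul_coe]
      exact_mod_cast (by nlinarith : r ≤ m * r)
    exact ⟨⟨h0, hT⟩, h1, h1⟩
  · have hlow : ((r / 2 / m : ℝ) : EReal) ≤ wStar (ξ ^ m) :=
      part_pow hm ξ hξ (r / 2) (by linarith) (by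
        rw [hr]; exact_mod_cast (by linarith : r / 2 < r))
    have h0' : 0 < wStar (ξ ^ m) :=
      lt_of_lt_of_le (by exact_mod_cast (by positivity : (0 : ℝ) < r / 2 / m)) hlow
    have hT' : wStar (ξ ^ m) < ⊤ := by
      by_contra hc
      have htop : wStar (ξ ^ m) = ⊤ := not_lt_top_iff.mp hc
      have := part_root hm ξ hξ (m * (r + 1)) (by positivity)
        (by rw [htop]; exact EReal.coe_lt_top _)
      rw [hr] at this
      have h2 : m * (r + 1) / m ≤ r := by exact_mod_cast this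
      rw [mul_div_cancel_left₀ _ hm0.ne'] at h2
      linarith
    obtain ⟨s, hs⟩ : ∃ s : ℝ, wStar (ξ ^ m) = (s : EReal) :=
      ⟨(wStar (ξ ^ m)).toReal, (EReal.coe_toReal hT'.ne (ne_bot_of_gt h0')).symm⟩
    have hs0 : 0 < s := by rw [hs] at h0'; exact_mod_cast h0'
    refine ⟨⟨h0', hT'⟩, ?_, ?_⟩
    · rw [hr, hs, mul_coe]
      by_contra hc
      have hc' : m * s < r := by
        rw [not_le] at hc
        exact_mod_cast hc
      have h1 : 0 < m * s := by positivity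
      have := part_pow hm ξ hξ ((m * s + r) / 2) (by linarith) (by
        rw [hr]; exact_mod_cast (by linarith : (m * s + r) / 2 < r))
      rw [hs] at this
      have h2 : (m * s + r) / 2 / m ≤ s := by exact_mod_cast this
      rw [div_le_iff₀ hm0] at h2
      linarith
    · rw [hr, hs, mul_coe]
      by_contra hc
      have hc' : m * r < s := by
        rw [not_le] at hc
        exact_mod_cast hc
      have h1 : 0 < m * r := by positivity
      have := part_root hm ξ hξ ((m * r + s) / 2) (by linarith) (by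
        rw [hs]; exact_mod_cast (by linarith : (m * r + s) / 2 < s))
      rw [hr] at this
      have h2 : (m * r + s) / 2 / m ≤ r := by exact_mod_cast this
      rw [div_le_iff₀ hm0] at h2
      linarith

theorem key (τ : ℝ) (hτ : 0 < τ) (m : ℕ) (hm : 1 ≤ m) (x : EReal)
    (hx : ∀ b : ℝ, 0 < b → b < τ → ((b / m : ℝ) : EReal) ≤ x) : ((τ / m : ℝ) : EReal) ≤ x := by
  have hm0 : (0 : ℝ) < m := by exact_mod_cast hm
  apply le_of_forall_lt_imp_le_of_dense
  intro c hc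
  obtain ⟨d, hd1, hd2⟩ := EReal.lt_iff_exists_real_btwn.mp hc
  have hd3 : d < τ / m := by exact_mod_cast hd2
  rw [lt_div_iff₀ hm0] at hd3
  refine le_trans ?_ (hx (max (d * m) (τ / 2)) (lt_of_lt_of_le (by linarith) (le_max_right _ _))
    (max_lt hd3 (by linarith)))
  refine hd1.le.trans ?_
  have : d ≤ max (d * m) (τ / 2) / m := by
    rw [le_div_iff₀ hm0]
    exact le_max_left _ _
  exact_mod_cast this

/-- The examples. -/
theorem examples (M B : ℕ) (hM : 1 ≤ M) (hB : 0 < B) (hdiv : ∀ m : ℕ, 1 ≤ m → m ≤ M → m ∣ B)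
    (τ : ℝ) (hτ : 41 * (M : ℝ) ^ 2 + B ≤ τ) : ∃ ξ : ℝ, 0 < ξ ∧
    wStar ξ = (τ : EReal) ∧ ∀ m : ℕ, 1 ≤ m → m ≤ M →
      wStar (ξ ^ m) = ((τ / m : ℝ) : EReal) ∧
      ∃ η : ℝ, 0 < η ∧ η ^ m = ξ ∧ wStar η = ((τ / m : ℝ) : EReal) := by
  have hB0 : (0 : ℝ) < B := by exact_mod_cast hB
  have hB1 : (1 : ℝ) ≤ B := by exact_mod_cast hB
  have hM1 : (1 : ℝ) ≤ M := by exact_mod_cast hM
  have hM2 : (1 : ℝ) ≤ (M : ℝ) ^ 2 := one_le_pow₀ hM1
  have hτ0 : 0 < τ := by linarith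
  have hτB : (B : ℝ) ≤ τ := by linarith
  obtain ⟨e, he⟩ : ∃ e : ℕ → ℕ, e = fun k =>
      if B ∣ k + 2 then B * (Nat.unpair ((k + 2) / B)).1 else 0 := ⟨_, rfl⟩
  obtain ⟨U, hU⟩ : ∃ U : ℕ → ℕ, ∀ j, U j = ⌊τ * ((j : ℝ) + 2) / B⌋₊ := ⟨_, fun _ => rfl⟩
  obtain ⟨V, hVU⟩ : ∃ V : ℕ → ℕ, ∀ j, V j = B * U j := ⟨fun j => B * U j, fun _ => rfl⟩
  obtain ⟨Mq, hMq⟩ : ∃ Mq : ℕ → ℕ, Pool.Agent.Helper35.Demand e Mq := ⟨_, fun k => le_rfl⟩
  have hUup : ∀ j : ℕ, (U j : ℝ) ≤ τ * ((j : ℝ) + 2) / B := by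
    intro j
    rw [hU]
    exact Nat.floor_le (by positivity)
  have hUlo : ∀ j : ℕ, τ * ((j : ℝ) + 2) / B - 1 < U j := by
    intro j
    rw [hU]
    exact Nat.sub_one_lt_floor _
  have hVup : ∀ j : ℕ, (V j : ℝ) ≤ τ * ((j : ℝ) + 2) := by
    intro j
    have := hUup j
    rw [le_div_iff₀ hB0] at this
    rw [hVU]; push_cast; linarith
  have hVlo : ∀ j : ℕ, τ * ((j : ℝ) + 2) - B < V j := by
    intro j
    have := hUlo j
    rw [sub_lt_iff_lt_add, div_lt_iff₀ hB0] at this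
    rw [hVU]; push_cast; linarith
  have hVbig : ∀ j : ℕ, 41 * M ^ 2 * (j + 2) ≤ V j := by
    intro j
    have h1 := hVlo j
    have hj : (0 : ℝ) ≤ j := Nat.cast_nonneg j
    have h2 : (41 * (M : ℝ) ^ 2 * ((j : ℝ) + 2)) < (V j : ℝ) := by nlinarith
    have h3 : ((41 * M ^ 2 * (j + 2) : ℕ) : ℝ) < (V j : ℝ) := by push_cast; exact h2
    exact (by exact_mod_cast h3 : 41 * M ^ 2 * (j + 2) < V j).le
  have hM2' : 1 ≤ M ^ 2 := Nat.one_le_pow _ _ hM
  have hUmono : StrictMono U := by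
    apply strictMono_nat_of_lt_succ
    intro j
    have h1 := hUup j
    have h2 := hUlo (j + 1)
    push_cast at h2
    have h4 : τ * ((j : ℝ) + 1 + 2) / B = τ * ((j : ℝ) + 2) / B + τ / B := by ring
    have h5 : 1 ≤ τ / B := by rw [le_div_iff₀ hB0]; linarith
    have h3 : (U j : ℝ) < U (j + 1) := by linarith
    exact_mod_cast h3
  have hVmono : Monotone V := fun a b hab => by
    rw [hVU, hVU]; exact Nat.mul_le_mul_left _ (hUmono.monotone hab)
  have hV40 : ∀ j, 40 * (j + 1) ≤ V j := fun j => by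
    have h1 := hVbig j
    have h2 : 41 * 1 * (j + 2) ≤ 41 * M ^ 2 * (j + 2) := by gcongr
    omega
  have hV : ∀ j, 22 ≤ V j := fun j => by have := hV40 j; omega
  have hBe : ∀ k, B ∣ e k := by
    intro k
    rw [he]
    by_cases h : B ∣ k + 2
    · simp only [h, if_true]; exact dvd_mul_right _ _
    · simp only [h, if_false]; exact dvd_zero _
  have hcopB : ∀ k m, 1 ≤ m → m ≤ M → Nat.Coprime (e k + 1) m := by
    intro k m h1 h2
    have h3 : m ∣ e k := (hdiv m h1 h2).trans (hBe k)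
    obtain ⟨t, ht⟩ := h3
    rw [ht]
    simp
  have hinf : ∀ i K : ℕ, ∃ k, K ≤ k ∧ e k = B * i := by
    intro i K
    have h1 := Nat.right_le_pair i (K + 2)
    have h2 : Nat.pair i (K + 2) ≤ B * Nat.pair i (K + 2) := Nat.le_mul_of_pos_left _ hB
    refine ⟨B * Nat.pair i (K + 2) - 2, by omega, ?_⟩
    have h3 : B * Nat.pair i (K + 2) - 2 + 2 = B * Nat.pair i (K + 2) := by omega
    rw [he]
    simp only [h3, dvd_mul_right, if_true, Nat.mul_div_cancel_left _ hB, Nat.unpair_pair]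
  obtain ⟨X⟩ := Pool.Agent.Helper35.sdata_exists e V Mq hV
  have h0 := X.ξ0
  have h1 := X.ξ1
  have hne := Pool.Agent.W72.ne_zero_at X hMq hV hVmono hV40
  have hξ0 : X.ξ ≠ 0 := by
    have := hne Polynomial.X X_ne_zero
    rwa [aeval_X] at this
  have hξpos : 0 < X.ξ := lt_of_le_of_ne h0 hξ0.symm
  -- the value at `ξ`
  have hA1 : wStar X.ξ ≤ (τ : EReal) := by
    apply wStar_le X.ξ τ (2 * τ)
    intro n w hw
    obtain ⟨c, hc, hcc⟩ := X.bound_all hMq hV n (V n) (hV40 n) (fun j hj => hVmono hj.le)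
    have h2 := Pool.Agent.Helper35.SSet_le X.ξ h0 h1 n _ c hc hcc w hw
    have h3 := hVup n
    linarith
  have hA2 : (τ : EReal) ≤ wStar X.ξ := by
    apply le_wStar
    intro b hb
    rw [frequently_atTop]
    intro N
    obtain ⟨N', hN'⟩ := exists_nat_gt (((B : ℝ) + 1 + |b|) / (τ - b))
    have hpos : 0 < τ - b := by linarith
    rw [div_lt_iff₀ hpos] at hN'
    have hBN : N + N' ≤ B * (N + N') := Nat.le_mul_of_pos_left _ hB
    refine ⟨B * (N + N') + 1, by omega, ?_⟩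
    apply X.mem_SSet hMq hV (B * (N + N')) (hinf (N + N'))
    have h2 := hVlo (B * (N + N'))
    have h3 : (N' : ℝ) ≤ ((B * (N + N') : ℕ) : ℝ) := by exact_mod_cast (by omega)
    obtain ⟨q, hq⟩ : ∃ q : ℝ, q = ((B * (N + N') : ℕ) : ℝ) := ⟨_, rfl⟩
    rw [← hq] at h2 h3
    have h4 : ((B * (N + N') + 1 : ℕ) : ℝ) = q + 1 := by rw [hq]; push_cast; ring
    rw [h4]
    have h5 : b ≤ |b| := le_abs_self b
    nlinarith [mul_le_mul_of_nonneg_right h3 hpos.le]
  have hA : wStar X.ξ = (τ : EReal) := le_antisymm hA1 hA2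
  refine ⟨X.ξ, hξpos, hA, fun m hm hmM => ?_⟩
  have hm0 : (0 : ℝ) < m := by exact_mod_cast hm
  have hmM2 : m ^ 2 ≤ M ^ 2 := Nat.pow_le_pow_left hmM 2
  have hmm : m ≤ m ^ 2 := Nat.le_self_pow (by norm_num) m
  obtain ⟨D, hD⟩ := hdiv m hm hmM
  have hD0 : 0 < D := by
    rcases Nat.eq_zero_or_pos D with h | h
    · rw [h, mul_zero] at hD; omega
    · exact h
  refine ⟨le_antisymm ?_ (key τ hτ0 m hm _ fun b hb hbτ => part_pow hm X.ξ hξ0 b hb (by
    rw [hA]; exact_mod_cast hbτ)), ?_⟩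
  · -- the value at `ξ^m`
    apply wStar_le (X.ξ ^ m) (τ / m) (2 * τ / m)
    intro n w hw
    have hfac : ∀ k, Nat.Coprime (e k + 1) m.factorial := by
      intro k
      rw [← Finset.prod_range_add_one_eq_factorial]
      apply Nat.Coprime.prod_right
      intro i hi
      rw [Finset.mem_range] at hi
      exact hcopB k (i + 1) (by omega) (by omega)
    have hVD : ∀ j, V j = m * (D * U j) := fun j => by rw [hVU, hD, mul_assoc]
    obtain ⟨c, hc, hcc⟩ := Pool.Agent.Y821.PW.bound_pow X (by omega) hfac hMq hVmono hV hV40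
      (fun j => D * U j) hVD (fun a b hab => Nat.mul_lt_mul_of_pos_left (hUmono hab) hD0)
      (fun j => by
        apply Nat.le_of_mul_le_mul_left _ (by omega : 0 < m)
        rw [← hVD]
        refine le_trans ?_ (hVbig j)
        calc m * (40 * (m * j + 1) + 1) = 40 * m ^ 2 * j + 41 * m := by ring
          _ ≤ 40 * M ^ 2 * j + 41 * M ^ 2 := by
              have : m ≤ M ^ 2 := hmm.trans hmM2
              gcongr
          _ ≤ 41 * M ^ 2 * (j + 2) := by nlinarith) n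
    have h2 := Pool.Agent.Helper35.SSet_le (X.ξ ^ m) (by positivity) (pow_le_one₀ h0 h1) n _ c hc
      hcc w hw
    have h3 := hVup n
    rw [hVD] at h3
    push_cast at h2 h3
    have h4 : τ / m * n + 2 * τ / m = τ * ((n : ℝ) + 2) / m := by ring
    rw [h4, le_div_iff₀ hm0]
    nlinarith
  · -- the value at the root
    obtain ⟨η, hη⟩ : ∃ η : ℝ, η = X.ξ ^ ((1 : ℝ) / m) := ⟨_, rfl⟩
    have hη0 : 0 < η := by rw [hη]; exact Real.rpow_pos_of_pos hξpos _
    have hη1 : η ≤ 1 := by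
      rw [hη]; exact Real.rpow_le_one h0 h1 (by positivity)
    have hηm : η ^ m = X.ξ := by
      rw [hη, ← Real.rpow_natCast, ← Real.rpow_mul h0, one_div, inv_mul_cancel₀ hm0.ne',
        Real.rpow_one]
    refine ⟨η, hη0, hηm, le_antisymm ?_ (key τ hτ0 m hm _ fun b hb hbτ =>
      part_root hm η hη0.ne' b hb (by rw [hηm, hA]; exact_mod_cast hbτ))⟩
    obtain ⟨C, hC⟩ : ∃ C : ℕ, C = m * (V 0 + 1) + 1 := ⟨_, rfl⟩
    apply wStar_le η (τ / m) (2 * τ + 1 + C)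
    intro n w hw
    have hEA : ∀ k, e k = 0 ∨ Nat.Coprime (Pool.Agent.Helper35.EA k * (e k + 1)) m := by
      intro k
      by_cases h : B ∣ k + 2
      · right
        apply Nat.Coprime.mul_left _ (hcopB k m hm hmM)
        obtain ⟨t, ht⟩ := (hdiv m hm hmM).trans h
        have h5 : Pool.Agent.Helper35.EA k = m * (4 * t * (k + 2)) + 1 := by
          unfold Pool.Agent.Helper35.EA
          rw [ht]; ring
        rw [h5]
        simp
      · left
        rw [he]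
        simp only [h, if_false]
    obtain ⟨c, hc, hcc⟩ := Pool.Agent.Y821.PW.bound_root X (by omega) hEA hMq hVmono hV hV40
      (fun j => by
        refine le_trans ?_ (hVbig j)
        calc 40 * m * (m * (j + 1)) + m = 40 * m ^ 2 * (j + 1) + m := by ring
          _ ≤ 40 * M ^ 2 * (j + 1) + M ^ 2 := by
              have : m ≤ M ^ 2 := hmm.trans hmM2
              gcongr
          _ ≤ 41 * M ^ 2 * (j + 2) := by nlinarith) η hη0 hη1 hηm n
    have h2 := Pool.Agent.Helper35.SSet_le η hη0.le hη1 n _ c hc hcc w hw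
    rw [← hC] at h2
    have h3 := hVup (n / m)
    have h4 : ((n / m : ℕ) : ℝ) ≤ (n : ℝ) / m := Nat.cast_div_le
    push_cast at h2
    have h5 : τ * (((n / m : ℕ) : ℝ) + 2) ≤ τ * ((n : ℝ) / m + 2) := by gcongr
    have h6 : τ * ((n : ℝ) / m + 2) = τ / m * n + 2 * τ := by ring
    linarith

/-- For every `S^*`-number `ξ` and every `m ≥ 1` also `ξ^m` is an `S^*`-number and the `*`-types
of `ξ` and `ξ^m` differ by a factor at most `m`. Both extreme factors occur, for every `m` and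
all large values of the type, and for `m = 1, …, M` with one and the same `ξ`. -/
theorem result :
    (∀ ξ : ℝ, IsSStar ξ → ∀ m : ℕ, 1 ≤ m →
      IsSStar (ξ ^ m) ∧ wStar ξ ≤ m * wStar (ξ ^ m) ∧ wStar (ξ ^ m) ≤ m * wStar ξ) ∧
    (∀ M B : ℕ, 1 ≤ M → 0 < B → (∀ m : ℕ, 1 ≤ m → m ≤ M → m ∣ B) →
      ∀ τ : ℝ, 41 * (M : ℝ) ^ 2 + B ≤ τ →
      ∃ ξ : ℝ, 0 < ξ ∧ IsSStar ξ ∧ wStar ξ = (τ : EReal) ∧
        ∀ m : ℕ, 1 ≤ m → m ≤ M → wStar (ξ ^ m) = ((τ / m : ℝ) : EReal) ∧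
          ∃ η : ℝ, 0 < η ∧ η ^ m = ξ ∧ IsSStar η ∧ wStar η = ((τ / m : ℝ) : EReal)) := by
  refine ⟨general, fun M B hM hB hdiv τ hτ => ?_⟩
  obtain ⟨ξ, h0, h1, h2⟩ := examples M B hM hB hdiv τ hτ
  have hB0 : (0 : ℝ) < B := by exact_mod_cast hB
  have hτ0 : 0 < τ := by
    have : (0 : ℝ) ≤ 41 * (M : ℝ) ^ 2 := by positivity
    linarith
  refine ⟨ξ, h0, ⟨?_, ?_⟩, h1, fun m hm hmM => ?_⟩
  · rw [h1]; exact_mod_cast hτ0
  · rw [h1]; exact EReal.coe_lt_top _
  · obtain ⟨h3, η, h4, h5, h6⟩ := h2 m hm hmM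
    have hm0 : (0 : ℝ) < m := by exact_mod_cast hm
    refine ⟨h3, η, h4, h5, ⟨?_, ?_⟩, h6⟩
    · rw [h6]; exact_mod_cast (by positivity : (0 : ℝ) < τ / m)
    · rw [h6]; exact EReal.coe_lt_top _

end Pool.Agent.Results.MP_d2f903_nt.PowersSharp
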